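import Pool.Agent.H85.KS2.Targets
import Pool.Agent.H98.KS.CC

/-!
# MP_ff41bc_an, row CC2
-/

set_option autoImplicit false

open scoped BigOperators
open Pool.Agent.H98.KS Pool.Agent.H85.KS2

noncomputable section

namespace Pool.Agent.H98.KS2

/-- sum of powers over dyadic numbers above `a` -/
theorem dyadic_sum_real (a s : ℝ) (ha : 0 < a) (hs : 0 < s) (J : Finset ℕ)
    (h : ∀ j ∈ J, a ≤ (2 : ℝ) ^ j) :
    ∑ j ∈ J, (a / (2 : ℝ) ^ j) ^ s ≤ 1 / (1 - (1 / 2 : ℝ) ^ s) := by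
  classical
  have hρ0 : (0 : ℝ) ≤ (1 / 2 : ℝ) ^ s := by positivity
  have hρ1 : (1 / 2 : ℝ) ^ s < 1 := Real.rpow_lt_one (by norm_num) (by norm_num) hs
  rcases J.eq_empty_or_nonempty with rfl | hne
  · rw [Finset.sum_empty]
    exact div_nonneg zero_le_one (by linarith)
  obtain ⟨j0, hj0⟩ : ∃ j0, j0 = J.min' hne := ⟨_, rfl⟩
  have h0 := h (J.min' hne) (Finset.min'_mem _ _)
  rw [← hj0] at h0
  have hj0' : ∀ j ∈ J, j0 ≤ j := fun j hj => hj0 ▸ Finset.min'_le _ _ hj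
  have hle : ∀ j ∈ J, (a / (2 : ℝ) ^ j) ^ s ≤ ((1 / 2 : ℝ) ^ s) ^ (j - j0) := by
    intro j hj
    have h1 : (2 : ℝ) ^ j = 2 ^ j0 * 2 ^ (j - j0) := by
      rw [← pow_add, Nat.add_sub_cancel' (hj0' j hj)]
    have h2 : a / (2 : ℝ) ^ j ≤ (1 / 2 : ℝ) ^ (j - j0) := by
      rw [h1, one_div, inv_pow, ← div_div, div_eq_mul_inv (a / 2 ^ j0)]
      have h3 : a / 2 ^ j0 ≤ 1 := by
        rw [div_le_one (by positivity)]
        exact h0
      exact mul_le_of_le_one_left (by positivity) h3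
    calc (a / (2 : ℝ) ^ j) ^ s ≤ ((1 / 2 : ℝ) ^ (j - j0)) ^ s :=
          Real.rpow_le_rpow (by positivity) h2 hs.le
      _ = ((1 / 2 : ℝ) ^ s) ^ (j - j0) := by
          rw [← Real.rpow_natCast (1 / 2 : ℝ), ← Real.rpow_mul (by norm_num), mul_comm,
            Real.rpow_mul (by norm_num), Real.rpow_natCast]
  calc ∑ j ∈ J, (a / (2 : ℝ) ^ j) ^ s ≤ ∑ j ∈ J, ((1 / 2 : ℝ) ^ s) ^ (j - j0) :=
        Finset.sum_le_sum hle
    _ = ∑ i ∈ J.image (fun j => j - j0), ((1 / 2 : ℝ) ^ s) ^ i := by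
        rw [Finset.sum_image]
        intro x hx y hy hxy
        have h1 := hj0' x hx
        have h2 := hj0' y hy
        simp only at hxy
        omega
    _ ≤ ∑' i : ℕ, ((1 / 2 : ℝ) ^ s) ^ i :=
        (summable_geometric_of_lt_one hρ0 hρ1).sum_le_tsum _ (fun _ _ => by positivity)
    _ = 1 / (1 - (1 / 2 : ℝ) ^ s) := by rw [tsum_geometric_of_lt_one hρ0 hρ1, inv_eq_one_div]

theorem ks2_CC2 (hCV : T_CV) (hNUM : T_NUM) (hMP2 : T_MP2) (hHP2 : T_HP2) : T_CC2 := by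
  intro k d hk hd
  obtain ⟨hkd, -, -, -, -, -, hd2k, -⟩ := hNUM k d hk hd
  obtain ⟨δ, CM, hδ, hδ1, hCM0, hmpd⟩ := hMP2 k d hk hd
  obtain ⟨M0, hM0⟩ := exists_nat_ge ((d : ℝ) / (2 * δ))
  set M : ℕ := M0 + 1 with hM
  have hMc : (d : ℝ) ≤ 2 * δ * M := by
    have h1 : (d : ℝ) / (2 * δ) ≤ M := by rw [hM]; push_cast; linarith
    rw [div_le_iff₀ (by positivity)] at h1
    linarith
  refine ⟨M, by omega, fun c0 hc0 => ?_⟩
  obtain ⟨CV, hCV0, hcv⟩ := hCV k d hk hkd.le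
  obtain ⟨CH, hCH0, hhpd⟩ := hHP2 k d hk hd2k
  have hk0 : (0 : ℝ) < k := by
    have : 0 < k := by omega
    exact_mod_cast this
  have hkdR : (k : ℝ) < d := by exact_mod_cast hkd
  set r : ℝ := 4 ^ (d - k) with hr
  have hr0 : 0 < r := by positivity
  set c2 : ℝ := min 1 (c0 / (4 * CV * r)) with hc2
  have hc20 : 0 < c2 := lt_min one_pos (by positivity)
  have hc2b : CV * c2 * r ≤ c0 / 4 := by
    have h1 : c2 ≤ c0 / (4 * CV * r) := min_le_right _ _
    calc CV * c2 * r ≤ CV * (c0 / (4 * CV * r)) * r := by gcongr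
      _ = c0 / 4 := by field_simp
  set CB : ℝ := CH * (4 * r / c0) ^ 2 with hCB
  set Cδ : ℝ := 1 / (1 - (1 / 2 : ℝ) ^ (2 * δ)) with hCδ
  have hCδ0 : 0 < Cδ := by
    have h1 : (1 / 2 : ℝ) ^ (2 * δ) < 1 := Real.rpow_lt_one (by norm_num) (by norm_num) (by positivity)
    rw [hCδ]
    exact div_pos one_pos (by linarith)
  set CA : ℝ := Cδ * (16 / c0 ^ 2 * CM * 4 ^ (2 * d)) with hCA
  refine ⟨c2, CA + CB, hc20, min_le_left _ _, by positivity, fun N F X hN hX => ?_⟩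
  classical
  have hN0 : 0 < N := by linarith
  have hj' : ∀ x ∈ X, ∃ j : ℕ, N ^ M ≤ (2 : ℝ) ^ j ∧ Rich k N c0 F (2 ^ j) x := fun x hx => (hX x hx).2
  choose! j hj using hj'
  set Y : ℝ := N ^ ((k : ℝ) / 2) with hY
  have hY1 : 1 ≤ Y := Real.one_le_rpow hN (by positivity)
  -- the two parts
  set mn : (Fin d → ℤ) → ℝ := fun x => ∫ θ in MinS k (2 ^ (j x + 2)), ‖KF k F (2 ^ (j x + 2)) θ x‖ with hmn
  set hg : (Fin d → ℤ) → ℝ := fun x => ∑ q ∈ Finset.Icc 1 (Qx (2 ^ (j x + 2))), ∑ a ∈ res q,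
      ∫ κ in {κ : ℝ | |κ| ≤ (((2 ^ (j x + 2) : ℕ) : ℝ)) ^ ((1 : ℝ) / 20) ∧ ¬ low k Y q κ},
        ‖KF k F (2 ^ (j x + 2)) (th k (2 ^ (j x + 2)) a q κ) x‖ / ((2 : ℝ) ^ (j x + 2)) ^ d with hhg
  set A := X.filter (fun x => c0 / 4 * ((2 : ℝ) ^ (j x) / N) ^ (d - k) ≤ mn x) with hA
  set B := X.filter (fun x => c0 / (4 * r) * (1 / N) ^ (d - k) ≤ hg x) with hB
  have hsub : X ⊆ A ∪ B := by
    intro x hx
    rw [Finset.mem_union, hA, hB, Finset.mem_filter, Finset.mem_filter]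
    by_contra hcon
    push Not at hcon
    have hA' := hcon.1 hx
    have hB' := hcon.2 hx
    obtain ⟨hNj, l, hl1, hl2, hl3⟩ := hj x hx
    have hlX : l ≤ (2 ^ (j x + 2)) ^ k := by
      refine le_trans hl2.le (Nat.pow_le_pow_left ?_ k)
      rw [pow_add]
      omega
    have hv := hcv N c2 F x (2 ^ (j x + 2)) l hN hc20.le Nat.one_le_two_pow hlX (hX x hx).1
    have hXr : (((2 ^ (j x + 2) : ℕ) : ℝ)) = 4 * 2 ^ (j x) := by
      push_cast
      rw [pow_add]
      ring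
    -- rewrite the high part
    have hhigh : (∑ q ∈ Finset.Icc 1 (Qx (2 ^ (j x + 2))), ∑ a ∈ res q,
      ∫ κ in {κ : ℝ | |κ| ≤ (((2 ^ (j x + 2) : ℕ) : ℝ)) ^ ((1 : ℝ) / 20) ∧ ¬ low k (N ^ ((k : ℝ) / 2)) q κ},
        ‖KF k F (2 ^ (j x + 2)) (th k (2 ^ (j x + 2)) a q κ) x‖) = ((2 : ℝ) ^ (j x + 2)) ^ d * hg x := by
      rw [hhg]
      simp only [MeasureTheory.integral_div, ← Finset.sum_div]
      rw [mul_div_cancel₀]
      positivity
    rw [hhigh] at hv
    set L : ℝ := (2 : ℝ) ^ (j x) with hL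
    have hL0 : 0 < L := by positivity
    have e1 : (2 : ℝ) ^ (j x + 2) = 4 * L := by rw [pow_add]; ring
    rw [hXr, e1] at hv
    have e2 : (1 / (4 * L) ^ k * ((4 * L) ^ d * hg x)) = (4 * L) ^ (d - k) * hg x := by
      have : (4 * L) ^ d = (4 * L) ^ (d - k) * (4 * L) ^ k := by rw [← pow_add]; congr 1; omega
      rw [this]
      field_simp
    have e3 : (4 * L) ^ (d - k) * hg x < (4 * L) ^ (d - k) * (c0 / (4 * r) * (1 / N) ^ (d - k)) := by
      gcongr
    have e4 : (4 * L) ^ (d - k) * (c0 / (4 * r) * (1 / N) ^ (d - k)) = c0 / 4 * (L / N) ^ (d - k) := by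
      rw [mul_pow, div_pow, div_pow, one_pow, hr]
      field_simp
    have e5 : CV * c2 * (4 * L / N) ^ (d - k) ≤ c0 / 4 * (L / N) ^ (d - k) := by
      rw [mul_div_assoc, mul_pow, ← mul_assoc]
      gcongr
    have e6 : c0 * (L / N) ^ (d - k) ≤ (cnt k F x l : ℝ) := by
      have := hl3
      push_cast at this
      exact this
    have e7 : mn x < c0 / 4 * (L / N) ^ (d - k) := hA'
    have e8 : 0 < c0 * (L / N) ^ (d - k) := by positivity
    have hv' : (cnt k F x l : ℝ) ≤ mn x + (4 * L) ^ (d - k) * hg x + CV * c2 * (4 * L / N) ^ (d - k) := by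
      rw [← e2]
      exact hv
    rw [e4] at e3
    have e9 : c0 * (L / N) ^ (d - k) = 4 * (c0 / 4 * (L / N) ^ (d - k)) := by ring
    rw [e9] at e6 e8
    linarith
  have hcard : (X.card : ℝ) ≤ A.card + B.card := by
    have h4 := Finset.card_le_card hsub
    have h5 := Finset.card_union_le A B
    exact_mod_cast (by omega : X.card ≤ A.card + B.card)
  -- part B
  have hBc : (B.card : ℝ) ≤ CB * N ^ d * F.card := by
    have h1 := hhpd Y F B (fun x => j x + 2) hY1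
    have h2 := card_le_of_sq B hg (c0 / (4 * r) * (1 / N) ^ (d - k)) _ (by positivity)
      (fun x hx => (Finset.mem_filter.1 hx).2) h1
    refine le_trans h2 (le_of_eq ?_)
    have hYp : (Y ^ (2 - (d : ℝ) / k)) ^ 2 = N ^ (2 * (k : ℝ) - d) := by
      rw [hY, ← Real.rpow_natCast, ← Real.rpow_mul hN0.le, ← Real.rpow_mul hN0.le]
      congr 1
      push_cast
      field_simp
    have hNd : N ^ (2 * (k : ℝ) - d) * (N ^ (d - k)) ^ 2 = N ^ d := by
      rw [← Real.rpow_natCast, ← Real.rpow_natCast, ← Real.rpow_mul hN0.le, ← Real.rpow_add hN0,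
        ← Real.rpow_natCast, Nat.cast_sub hkd.le]
      congr 1
      push_cast
      ring
    rw [hYp, ← hNd, hCB, div_pow, one_pow]
    field_simp
  -- part A
  have hAc : (A.card : ℝ) ≤ CA * N ^ d * F.card := by
    set J := A.image j with hJ
    have hfib : A.card = ∑ i ∈ J, (A.filter (fun x => j x = i)).card :=
      Finset.card_eq_sum_card_image j A
    set e : ℝ := -(2 * δ) with he
    have hA1 : ∀ i ∈ J, ((A.filter (fun x => j x = i)).card : ℝ) ≤
        16 / c0 ^ 2 * CM * 4 ^ (2 * d) * N ^ (2 * ((d : ℝ) - k)) * ((2 : ℝ) ^ i) ^ e * F.card := by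
      intro i hi
      set L : ℝ := (2 : ℝ) ^ i with hL
      have hL1 : 1 ≤ L := one_le_pow₀ (by norm_num)
      have hL0 : 0 < L := by positivity
      have h1 := hmpd (2 ^ (i + 2)) F (A.filter (fun x => j x = i)) Nat.one_le_two_pow
      have h2 := card_le_of_sq (A.filter (fun x => j x = i))
        (fun x => ∫ θ in MinS k (2 ^ (i + 2)), ‖KF k F (2 ^ (i + 2)) θ x‖) (c0 / 4 * (L / N) ^ (d - k)) _
        (by positivity) (by
          intro x hx
          rw [Finset.mem_filter] at hx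
          have h3 := (Finset.mem_filter.1 hx.1).2
          rw [hmn] at h3
          simp only [hx.2] at h3
          exact h3) h1
      refine le_trans h2 ?_
      have hX4 : (((2 ^ (i + 2) : ℕ) : ℝ)) = 4 * L := by
        push_cast
        rw [pow_add]
        ring
      rw [hX4]
      have h4 : (4 * L) ^ (2 * ((d : ℝ) - k - δ)) ≤ 4 ^ (2 * d) * L ^ (2 * ((d : ℝ) - k - δ)) := by
        rw [Real.mul_rpow (by norm_num) hL0.le]
        have : (4 : ℝ) ^ (2 * ((d : ℝ) - k - δ)) ≤ 4 ^ (2 * d) := by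
          rw [← Real.rpow_natCast]
          apply Real.rpow_le_rpow_of_exponent_le (by norm_num)
          push_cast
          linarith
        gcongr
      have h5 : L ^ (2 * ((d : ℝ) - k - δ)) = L ^ e * (L ^ (d - k)) ^ 2 := by
        rw [← Real.rpow_natCast, ← Real.rpow_natCast, ← Real.rpow_mul hL0.le, ← Real.rpow_add hL0,
          Nat.cast_sub hkd.le, he]
        congr 1
        push_cast
        ring
      have h6 : (N ^ (d - k)) ^ 2 = N ^ (2 * ((d : ℝ) - k)) := by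
        rw [← Real.rpow_natCast, ← Real.rpow_natCast, ← Real.rpow_mul hN0.le, Nat.cast_sub hkd.le]
        congr 1
        push_cast
        ring
      calc CM * (4 * L) ^ (2 * ((d : ℝ) - k - δ)) * F.card / (c0 / 4 * (L / N) ^ (d - k)) ^ 2
          ≤ CM * (4 ^ (2 * d) * L ^ (2 * ((d : ℝ) - k - δ))) * F.card / (c0 / 4 * (L / N) ^ (d - k)) ^ 2 := by
            gcongr
        _ = 16 / c0 ^ 2 * CM * 4 ^ (2 * d) * N ^ (2 * ((d : ℝ) - k)) * L ^ e * F.card := by
            rw [h5, ← h6, div_pow]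
            field_simp
            ring
    have hNM : (0 : ℝ) < N ^ M := by positivity
    have hJN : ∀ i ∈ J, N ^ M ≤ (2 : ℝ) ^ i := by
      intro i hi
      obtain ⟨x, hx, rfl⟩ := Finset.mem_image.1 hi
      exact (hj x (Finset.mem_filter.1 hx).1).1
    have hpow : ∀ i ∈ J, ((2 : ℝ) ^ i) ^ e = (N ^ M) ^ e * (N ^ M / (2 : ℝ) ^ i) ^ (2 * δ) := by
      intro i _
      have h2 : (0 : ℝ) < 2 ^ i := by positivity
      have h4 : ((2 : ℝ) ^ i) ^ e = (N ^ M) ^ e * ((2 : ℝ) ^ i / N ^ M) ^ e := by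
        rw [← Real.mul_rpow hNM.le (by positivity)]
        congr 1
        field_simp
      have h5 : ((2 : ℝ) ^ i / N ^ M) ^ e = (N ^ M / (2 : ℝ) ^ i) ^ (2 * δ) := by
        rw [he, Real.rpow_neg (by positivity), ← Real.inv_rpow (by positivity), inv_div]
      rw [h4, h5]
    have hsum : ∑ i ∈ J, ((2 : ℝ) ^ i) ^ e ≤ (N ^ M) ^ e * Cδ := by
      rw [Finset.sum_congr rfl hpow, ← Finset.mul_sum]
      exact mul_le_mul_of_nonneg_left (dyadic_sum_real (N ^ M) (2 * δ) hNM (by positivity) J hJN)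
        (by positivity)
    have hNfin : N ^ (2 * ((d : ℝ) - k)) * (N ^ M) ^ e ≤ N ^ d := by
      rw [← Real.rpow_natCast N M, ← Real.rpow_mul hN0.le, ← Real.rpow_add hN0, ← Real.rpow_natCast N d]
      apply Real.rpow_le_rpow_of_exponent_le hN
      have h3 : 2 * ((d : ℝ) - k) + M * e = 2 * d - 2 * k - 2 * δ * M := by
        rw [he]; ring
      rw [h3]
      linarith
    calc (A.card : ℝ) = ∑ i ∈ J, ((A.filter (fun x => j x = i)).card : ℝ) := by
          rw [hfib]; push_cast; rfl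
      _ ≤ ∑ i ∈ J, 16 / c0 ^ 2 * CM * 4 ^ (2 * d) * N ^ (2 * ((d : ℝ) - k)) * ((2 : ℝ) ^ i) ^ e * F.card :=
          Finset.sum_le_sum hA1
      _ = 16 / c0 ^ 2 * CM * 4 ^ (2 * d) * N ^ (2 * ((d : ℝ) - k)) * (∑ i ∈ J, ((2 : ℝ) ^ i) ^ e) * F.card := by
          rw [Finset.mul_sum, Finset.sum_mul]
      _ ≤ 16 / c0 ^ 2 * CM * 4 ^ (2 * d) * N ^ (2 * ((d : ℝ) - k)) * ((N ^ M) ^ e * Cδ) * F.card := by
          gcongr
      _ = CA * (N ^ (2 * ((d : ℝ) - k)) * (N ^ M) ^ e) * F.card := by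
          rw [hCA]; ring
      _ ≤ CA * N ^ d * F.card := by
          have : 0 ≤ CA := by positivity
          gcongr
  calc (X.card : ℝ) ≤ A.card + B.card := hcard
    _ ≤ CA * N ^ d * F.card + CB * N ^ d * F.card := by gcongr
    _ = (CA + CB) * N ^ d * F.card := by ring

end Pool.Agent.H98.KS2
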