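import Pool.Agent.H85.KS2.Targets
import Pool.Agent.H98.KS.CORE

/-!
# MP_ff41bc_an, row CORE2
-/

set_option autoImplicit false

open scoped BigOperators
open Pool.Agent.H98.KS Pool.Agent.H85.KS2

noncomputable section

namespace Pool.Agent.H98.KS2

theorem ks2_CORE2 (hHL : T_HL) (hNUM : T_NUM) (hMID2 : T_MID2) (hCC2 : T_CC2) (hNL2 : T_NL2) :
    T_CORE2 := by
  intro k d hk hd
  obtain ⟨hkd, -⟩ := hNUM k d hk hd
  obtain ⟨c0, hc0, hlow⟩ := hNL2 k d hk hd
  obtain ⟨M, hM, h2d⟩ := hCC2 k d hk hd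
  obtain ⟨c2, C, hc2, hc21, hC, hcc⟩ := h2d c0 hc0
  obtain ⟨C', hC', hmid⟩ := hMID2 k d M hk hd hM c0 hc0
  have hdk : (0 : ℝ) < (d : ℝ) - k := by
    have : (k : ℝ) < d := by exact_mod_cast hkd
    linarith
  refine ⟨2 ^ d / c2 + C' + C, by positivity, fun F X t ht ht1 hX => ?_⟩
  classical
  set N : ℝ := t ^ (-(1 / ((d : ℝ) - k))) with hNdef
  have hN1 : 1 ≤ N := by
    apply Real.one_le_rpow_of_pos_of_le_one_of_nonpos ht ht1
    have : 0 < 1 / ((d : ℝ) - k) := by positivity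
    linarith
  have hN0 : 0 < N := by linarith
  have hNd : t ^ (-((d : ℝ) / ((d : ℝ) - k))) = N ^ d := by
    rw [hNdef, ← Real.rpow_natCast, ← Real.rpow_mul ht.le]
    congr 1
    field_simp
  have hNt : t * N ^ (d - k) = 1 := by
    rw [hNdef, ← Real.rpow_natCast, ← Real.rpow_mul ht.le, Nat.cast_sub hkd.le]
    have : -(1 / ((d : ℝ) - k)) * ((d : ℝ) - k) = -1 := by field_simp
    rw [this, Real.rpow_neg_one]
    field_simp
  rw [hNd]
  -- every x is rich at some scale
  have hrich : ∀ x ∈ X, ∃ j : ℕ, Rich k N c0 F (2 ^ j) x := by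
    intro x hx
    obtain ⟨l, hl1, hlt⟩ := hX x hx
    have hcnt0 : cnt k F x l ≠ 0 := by
      intro h0
      rw [h0] at hlt
      have : 0 ≤ t * (NN k d l : ℝ) := by positivity
      push_cast at hlt
      linarith
    have hNN := NN_ne_zero_of_cnt k d l (by omega) F x hcnt0
    have hl := hlow l hl1 hNN
    have hb : 1 < 2 ^ k := Nat.one_lt_two_pow (by omega)
    refine ⟨Nat.log (2 ^ k) l, l, ?_, ?_, ?_⟩
    · rw [← pow_mul, Nat.mul_comm, pow_mul]
      exact Nat.pow_log_le_self _ (by omega)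
    · have := Nat.lt_pow_succ_log_self hb l
      rw [show 2 * 2 ^ Nat.log (2 ^ k) l = 2 ^ (Nat.log (2 ^ k) l + 1) by rw [pow_succ]; ring, ← pow_mul,
        Nat.mul_comm, pow_mul]
      exact this
    · have e1 : ((2 : ℝ) ^ Nat.log (2 ^ k) l) ^ (d - k) ≤ (l : ℝ) ^ (((d : ℝ) - k) / k) := by
        have hle : (((2 ^ k) ^ Nat.log (2 ^ k) l : ℕ) : ℝ) ≤ l := by
          exact_mod_cast Nat.pow_log_le_self _ (by omega)
        have hk0 : (0 : ℝ) < k := by
          have : 0 < k := by omega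
          exact_mod_cast this
        calc ((2 : ℝ) ^ Nat.log (2 ^ k) l) ^ (d - k)
            = ((((2 ^ k) ^ Nat.log (2 ^ k) l : ℕ) : ℝ)) ^ (((d : ℝ) - k) / k) := by
              push_cast
              rw [← Real.rpow_natCast ((2 : ℝ) ^ Nat.log (2 ^ k) l), Nat.cast_sub hkd.le, ← pow_mul,
                Nat.mul_comm, pow_mul, ← Real.rpow_natCast _ k, ← Real.rpow_mul (by positivity)]
              congr 1
              field_simp
          _ ≤ (l : ℝ) ^ (((d : ℝ) - k) / k) :=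
              Real.rpow_le_rpow (by positivity) hle (by positivity)
      have e2 : c0 * ((((2 ^ Nat.log (2 ^ k) l : ℕ) : ℝ)) / N) ^ (d - k) =
          t * (c0 * ((2 : ℝ) ^ Nat.log (2 ^ k) l) ^ (d - k)) := by
        push_cast
        rw [div_pow]
        have hNp : N ^ (d - k) ≠ 0 := by positivity
        field_simp
        rw [mul_comm]
        exact hNt.symm
      rw [e2]
      calc t * (c0 * ((2 : ℝ) ^ Nat.log (2 ^ k) l) ^ (d - k))
          ≤ t * (c0 * (l : ℝ) ^ (((d : ℝ) - k) / k)) := by gcongr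
        _ ≤ t * (NN k d l : ℝ) := by gcongr
        _ ≤ cnt k F x l := hlt.le
  -- the three parts
  set X1 := X.filter (fun x => ¬ Sparse N c2 F x) with hX1
  set X2 := X.filter (fun x => Sparse N c2 F x ∧ ∃ j : ℕ, (2 : ℝ) ^ j ≤ N ^ M ∧ Rich k N c0 F (2 ^ j) x) with hX2
  set X3 := X.filter (fun x => Sparse N c2 F x ∧ ∃ j : ℕ, N ^ M ≤ (2 : ℝ) ^ j ∧ Rich k N c0 F (2 ^ j) x) with hX3
  have hsub : X ⊆ X1 ∪ (X2 ∪ X3) := by
    intro x hx
    by_cases hs : Sparse N c2 F x
    · obtain ⟨j, hj⟩ := hrich x hx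
      rcases le_total ((2 : ℝ) ^ j) (N ^ M) with h | h
      · exact Finset.mem_union_right _ (Finset.mem_union_left _ (Finset.mem_filter.2 ⟨hx, hs, j, h, hj⟩))
      · exact Finset.mem_union_right _ (Finset.mem_union_right _ (Finset.mem_filter.2 ⟨hx, hs, j, h, hj⟩))
    · exact Finset.mem_union_left _ (Finset.mem_filter.2 ⟨hx, hs⟩)
  have hcard : (X.card : ℝ) ≤ X1.card + (X2.card + X3.card) := by
    have h4 := Finset.card_le_card hsub
    have h5 := Finset.card_union_le X1 (X2 ∪ X3)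
    have h6 := Finset.card_union_le X2 X3
    exact_mod_cast (by omega : X.card ≤ X1.card + (X2.card + X3.card))
  have hNdpos : 0 < N ^ d := by positivity
  have b1 : (X1.card : ℝ) ≤ 2 ^ d / c2 * N ^ d * F.card := by
    have := hHL d F X1 (fun _ => 1) (c2 / N ^ d) (by positivity) (fun _ => zero_le_one) (by
      intro x hx
      rw [hX1, Finset.mem_filter] at hx
      have hx2 := hx.2
      unfold Sparse at hx2
      push Not at hx2
      obtain ⟨R, hR⟩ := hx2
      refine ⟨R, ?_⟩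
      rw [Finset.sum_const, nsmul_eq_mul, mul_one]
      exact hR)
    rw [Finset.sum_const, nsmul_eq_mul, mul_one] at this
    calc (X1.card : ℝ) ≤ 2 ^ d / (c2 / N ^ d) * F.card := this
      _ = 2 ^ d / c2 * N ^ d * F.card := by field_simp
  have b2 : (X2.card : ℝ) ≤ C' * N ^ d * F.card := by
    apply hmid N F X2 hN1
    intro x hx
    rw [hX2, Finset.mem_filter] at hx
    refine ⟨?_, hx.2.2⟩
    intro R
    refine le_trans (hx.2.1 R) ?_
    have : c2 / N ^ d ≤ 1 / N ^ d := by gcongr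
    exact mul_le_mul_of_nonneg_right this (by positivity)
  have b3 : (X3.card : ℝ) ≤ C * N ^ d * F.card := by
    apply hcc N F X3 hN1
    intro x hx
    rw [hX3, Finset.mem_filter] at hx
    exact hx.2
  calc (X.card : ℝ) ≤ X1.card + (X2.card + X3.card) := hcard
    _ ≤ 2 ^ d / c2 * N ^ d * F.card + (C' * N ^ d * F.card + C * N ^ d * F.card) := by gcongr
    _ = (2 ^ d / c2 + C' + C) * N ^ d * F.card := by ring

end Pool.Agent.H98.KS2
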